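import Pool.Agent.Y516.NW.StmPos
import Pool.Agent.Y275.NW.Boot

set_option autoImplicit false

/-!
# Project NW: for positive energy every point is wandering (job NW-POS)
-/

namespace Pool.Agent.Y438.NW

open Set Pool.Agent.Y516.NW

variable {N : ℕ}

/-- the identity of Lagrange and Jacobi for the forces -/
theorem virial (m : Fin N → ℝ) (q : Cfg N) : ∑ i, m i * inner ℝ (q i) (acc m q i) =
    -∑ i, ∑ j, m i * m j / ‖q i - q j‖ / 2 := by
  have e1 : ∑ i, m i * inner ℝ (q i) (acc m q i) =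
      ∑ i, ∑ j, m i * m j / ‖q j - q i‖ ^ 3 * inner ℝ (q i) (q j - q i) := by
    refine Finset.sum_congr rfl fun i _ => ?_
    unfold acc
    rw [inner_sum, Finset.mul_sum]
    refine Finset.sum_congr rfl fun j _ => ?_
    rw [inner_smul_right]
    ring
  have e2 : ∑ i, ∑ j, m i * m j / ‖q j - q i‖ ^ 3 * inner ℝ (q i) (q j - q i) =
      ∑ i, ∑ j, m j * m i / ‖q i - q j‖ ^ 3 * inner ℝ (q j) (q i - q j) := Finset.sum_comm
  have e3 : ∑ i, ∑ j, m i * m j / ‖q j - q i‖ ^ 3 * inner ℝ (q i) (q j - q i) +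
      ∑ i, ∑ j, m j * m i / ‖q i - q j‖ ^ 3 * inner ℝ (q j) (q i - q j) =
      2 * -∑ i, ∑ j, m i * m j / ‖q i - q j‖ / 2 := by
    rw [← Finset.sum_add_distrib, ← Finset.sum_neg_distrib, Finset.mul_sum]
    refine Finset.sum_congr rfl fun i _ => ?_
    rw [← Finset.sum_add_distrib, ← Finset.sum_neg_distrib, Finset.mul_sum]
    refine Finset.sum_congr rfl fun j _ => ?_
    have h1 : inner ℝ (q i) (q j - q i) + inner ℝ (q j) (q i - q j) = -‖q i - q j‖ ^ 2 := by
      rw [← real_inner_self_eq_norm_sq]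
      simp only [inner_sub_left, inner_sub_right]
      ring
    rw [norm_sub_rev (q j) (q i), mul_comm (m j) (m i), ← mul_add, h1]
    rcases eq_or_ne ‖q i - q j‖ 0 with h0 | h0
    · rw [h0]
      simp
    · field_simp
  rw [e1]
  linarith [e2, e3]

/-- the function of Lagrange and Jacobi -/
noncomputable def LJ (m : Fin N → ℝ) (x : Cfg N × Cfg N) : ℝ :=
  ∑ i, m i * inner ℝ (x.1 i) (vel m x i)

theorem LJ_cont (m : Fin N → ℝ) : Continuous (LJ m) := by
  unfold LJ
  refine continuous_finsetSum _ fun i _ => continuous_const.mul ?_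
  have h1 : Continuous fun x : Cfg N × Cfg N => x.1 i := (continuous_apply i).comp continuous_fst
  have h2 : Continuous fun x : Cfg N × Cfg N => vel m x i :=
    (((continuous_apply i).comp continuous_snd).const_smul ((m i)⁻¹))
  exact h1.inner h2

theorem pos : PosStm := by
  intro N m hm E hE ψ φ hφ x hx
  obtain ⟨V1, hV1o, hxV1, s1, hs1, η, hη, hloc⟩ := Pool.Agent.Y275.NW.loc (Cfg N × Cfg N) (Free N)
    (Surf m E) (Z m ψ) ψ φ free_open (surf_free m E) (Z_cont m ψ hφ.cont) hφ.cont hφ.pos hφ.flow x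
    (surf_free m E hx)
  have hgrow : ∀ y ∈ V1 ∩ Surf m E, ∀ t ≥ s1, 2 * E * η ≤ LJ m (φ t y) - LJ m y := by
    rintro y ⟨hyV, hyS⟩ t ht
    obtain ⟨τ, hmot⟩ := mot_of_flow m hm E ψ φ hφ y hyS
    have hη' := hloc y ⟨hyV, hyS⟩ τ hmot.τ0 hmot.τd t ht
    have h0 : φ 0 y = y := (hφ.flow y hyS).1
    have hder : ∀ s, HasDerivAt (fun s => LJ m (φ s y) - 2 * E * τ s)
        (∑ i, m i * (inner ℝ ((φ s y).1 i) (ψ (φ s y) • acc m (φ s y).1 i) +
          inner ℝ (ψ (φ s y) • vel m (φ s y) i) (vel m (φ s y) i))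
          - 2 * E * ψ (φ s y)) s := by
      intro s
      refine HasDerivAt.sub ?_ ((hmot.τd s).const_mul _)
      unfold LJ
      refine HasDerivAt.fun_sum fun i _ => ?_
      exact ((hmot.qd s i).inner ℝ (hmot.vd s i)).const_mul (m i)
    have hmono : MonotoneOn (fun s => LJ m (φ s y) - 2 * E * τ s) (Ici 0) := by
      refine monotoneOn_of_deriv_nonneg (convex_Ici 0)
        (fun s _ => (hder s).continuousAt.continuousWithinAt)
        (fun s _ => (hder s).differentiableAt.differentiableWithinAt) ?_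
      intro s _
      rw [(hder s).deriv]
      have hc := hmot.cpos s
      have hen := hmot.en s
      have hv := virial m (φ s y).1
      have hU : 0 ≤ ∑ i, ∑ j, m i * m j / ‖(φ s y).1 i - (φ s y).1 j‖ / 2 :=
        Finset.sum_nonneg fun i _ => Finset.sum_nonneg fun j _ => by
          have := hm i
          have := hm j
          positivity
      have e : ∑ i, m i * (inner ℝ ((φ s y).1 i) (ψ (φ s y) • acc m (φ s y).1 i) +
          inner ℝ (ψ (φ s y) • vel m (φ s y) i) (vel m (φ s y) i)) =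
          ψ (φ s y) * (∑ i, m i * inner ℝ ((φ s y).1 i) (acc m (φ s y).1 i) +
            2 * ∑ i, m i * ‖vel m (φ s y) i‖ ^ 2 / 2) := by
        rw [Finset.mul_sum, ← Finset.sum_add_distrib, Finset.mul_sum]
        refine Finset.sum_congr rfl fun i _ => ?_
        rw [inner_smul_right, real_inner_smul_left, real_inner_self_eq_norm_sq]
        ring
      rw [e]
      nlinarith
    have h1 := hmono (show (0:ℝ) ∈ Ici 0 from mem_Ici.mpr le_rfl)
      (show t ∈ Ici (0:ℝ) from mem_Ici.mpr (by linarith)) (by linarith)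
    simp only [h0, hmot.τ0, mul_zero, sub_zero] at h1
    have h2 : 2 * E * η ≤ 2 * E * τ t := by gcongr
    linarith
  -- conclusion
  intro hNW
  have hκ : 0 < 2 * E * η := by positivity
  have hU4 : IsOpen {y : Cfg N × Cfg N | |LJ m y - LJ m x| < 2 * E * η / 2} :=
    isOpen_lt (((LJ_cont m).sub continuous_const).abs) continuous_const
  have hxU4 : x ∈ {y : Cfg N × Cfg N | |LJ m y - LJ m x| < 2 * E * η / 2} := by
    show |LJ m x - LJ m x| < 2 * E * η / 2
    rw [sub_self, abs_zero]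
    positivity
  obtain ⟨t, ht, y, ⟨hyV, hyS⟩, hφy⟩ := hNW
    (V1 ∩ {y : Cfg N × Cfg N | |LJ m y - LJ m x| < 2 * E * η / 2})
    (hV1o.inter hU4) ⟨hxV1, hxU4⟩ s1
  have h1 := hgrow y ⟨hyV.1, hyS⟩ t ht.le
  have h2 : |LJ m y - LJ m x| < 2 * E * η / 2 := hyV.2
  have h3 : |LJ m (φ t y) - LJ m x| < 2 * E * η / 2 := hφy.2
  rw [abs_lt] at h2 h3
  linarith [h2.1, h2.2, h3.1, h3.2]

end Pool.Agent.Y438.NW
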